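import Pool.Agent.Helper29.UG.Props
import Pool.Agent.Helper19.RC.Cross

/-!
# MP_b55b7c_an: the crossed product as a fixed point algebra, with the action on the diagonal
-/

open scoped ENNReal NNReal InnerProductSpace ComplexOrder
open Filter Topology

attribute [-instance] CStarMatrix.instAlgebra CStarMatrix.instModule CStarMatrix.instSMul
  CStarMatrix.instMulAction CStarMatrix.instDistribMulAction

noncomputable section
namespace RC
universe u

/-- As `CrossP`, with the action on the diagonal matrices. -/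
def CrossGP : Prop := ∀ (A : Type u) [CStarAlgebra A] [PartialOrder A] [StarOrderedRing A]
  (G : Type) [Group G] [Fintype G] [DecidableEq G] (α : G → A ≃⋆ₐ[ℂ] A) (R : Type u)
  [CStarAlgebra R] (k : A →⋆ₐ[ℂ] R) (u : G → R), IsAct α → IsCross α k u →
  ∃ (β : G → CStarMatrix G G A ≃⋆ₐ[ℂ] CStarMatrix G G A) (jR : R →⋆ₐ[ℂ] CStarMatrix G G A),
    IsAct β ∧ IsFix β jR ∧ (∀ φ : A →ₗ[ℂ] ℂ, (∀ g a, φ (α g a) = φ a) →
      ∀ (g : G) (T : CStarMatrix G G A), ∑ i, φ (β g T i i) = ∑ i, φ (T i i)) ∧
    ∀ g a, β g (dg G a) = dg G (α g a)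

open H19Cross in
theorem crossGP : CrossGP.{u} := by
  intro A _ _ _ G _ _ _ α R _ k u ha hc
  refine ⟨be ha, jh ha hc, ?_, ⟨?_, ?_⟩, ?_, ?_⟩
  · intro g h T
    rw [be_apply, be_apply, be_apply, bf_mul_act ha]
  · intro r s hrs
    rw [jh_apply, jh_apply] at hrs
    have h1 : cf hc r = cf hc s := by
      funext x
      have h2 : jf hc r 1 x⁻¹ = jf hc s 1 x⁻¹ := by rw [hrs]
      rw [jf_apply, jf_apply] at h2
      simpa [act_one ha] using h2
    rw [cf_spec hc r, cf_spec hc s, h1]
  · intro T
    constructor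
    · intro hT
      refine ⟨∑ s, k (T 1 s⁻¹) * u s, ?_⟩
      rw [jh_apply]
      apply cm_ext
      intro g h
      rw [jf_apply, cf_unique hc (f := fun s => T 1 s⁻¹) rfl]
      have h1 : bf α g⁻¹ T g h = T g h := by
        rw [← be_apply ha, hT]
      rw [← h1, bf_apply]
      simp only [mul_inv_rev, inv_inv, mul_inv_cancel]
    · rintro ⟨r, rfl⟩ g
      rw [jh_apply, be_apply]
      apply cm_ext
      intro a b
      rw [bf_apply, jf_apply, jf_apply, ← ha]
      congr 2
      · simp only [mul_inv_rev, mul_inv_cancel_left]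
      · simp only [mul_inv_rev, mul_assoc, mul_inv_cancel_left]
  · intro φ hφ g T
    have h1 : ∀ i, φ (be ha g T i i) = φ (T (i * g) (i * g)) := by
      intro i
      rw [be_apply, bf_apply, hφ]
    simp only [h1]
    exact Equiv.sum_comp (Equiv.mulRight g) (fun i => φ (T i i))
  · intro g a
    rw [be_apply]
    apply cm_ext
    intro i l
    rw [bf_apply]
    show α g (Matrix.diagonal (fun _ => a) (i * g) (l * g)) = Matrix.diagonal (fun _ => α g a) i l
    rw [Matrix.diagonal_apply, Matrix.diagonal_apply]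
    by_cases h : i = l
    · subst h; simp
    · rw [if_neg h, if_neg (fun h' => h (mul_right_cancel h')), map_zero]

end RC
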