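import Pool.Agent.Helper29.UG.Cross
import Pool.Agent.Helper10.RC.Fin

/-!
# MP_b55b7c_an: uniform property Gamma, the final assembly
-/

open scoped ENNReal NNReal InnerProductSpace ComplexOrder
open Filter Topology

attribute [-instance] CStarMatrix.instAlgebra CStarMatrix.instModule CStarMatrix.instSMul
  CStarMatrix.instMulAction CStarMatrix.instDistribMulAction

noncomputable section
namespace RC
universe u

/-- Both inequalities from invariant divisible approximately central elements. -/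
theorem of_eHalf (hL : LimEqP.{u}) (hC : CritP.{u}) (hR : RedCompP.{u})
    (hTC : TCompGP.{u}) (hTD : TDivGP.{u}) (hEM : EHMatP.{u}) (hDI : DomInvP.{u})
    (hDM : DomInvMatP.{u}) (hX : CrossGP.{u}) (hMS : MatSimpP.{u}) (hSi : SimpP.{u})
    (A : Type u) [CStarAlgebra A] [PartialOrder A] [StarOrderedRing A]
    (hs : IsSimpleC A) (hinf : ¬ FiniteDimensional ℂ A) (C : ℝ)
    (hCd : ∀ σ : QTrace A, ∃ φ : TState A, ∀ x : A, 0 ≤ x →
      σ.τ Unit (one1 x) ≤ C * (φ.φ x).re)
    (G : Type) [Group G] [Fintype G] (α : G → A ≃⋆ₐ[ℂ] A) (hα : IsAct α) (hH : EHalf A α) :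
    (∀ (B : Type u) [CStarAlgebra B] [PartialOrder B] [StarOrderedRing B] (j : B →⋆ₐ[ℂ] A),
      IsFix α j → rc A ≤ rc B) ∧
    (∀ (R : Type u) [CStarAlgebra R] [PartialOrder R] [StarOrderedRing R] (k : A →⋆ₐ[ℂ] R)
      (w : G → R), IsCross α k w → rc A / Fintype.card G ≤ rc R) := by
  classical
  obtain ⟨C', hC', hD⟩ := hDI A C hCd G α hα
  have hsA := hSi A hs
  refine ⟨?_, ?_⟩
  · intro B _ _ _ j hj
    exact fixed_le hL hC A B G α j hα hj hsA (hTC A G α C' hH hC' hD)
      (hTD A B G α j hα hj hsA hinf C' hH hC' hD)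
  · intro R _ _ _ k w hk
    obtain ⟨β, jR, hβ, hjR, htr, hdg⟩ := hX A G α R k w hα hk
    have hHm := hEM A G α hH G β hdg
    have hDm := hDM A G α C' hC' hD G β htr
    have hCm : 0 ≤ C' * Fintype.card G := by positivity
    exact cross_le hL hC hR A R G β jR hβ hjR ((hMS A G).1 hsA)
      (hTC _ G β _ hHm hCm hDm)
      (hTD _ R G β jR hβ hjR ((hMS A G).1 hsA) ((hMS A G).2 hinf) _ hHm hCm hDm)

/-- Uniform property Gamma of the algebra or of the crossed product. -/
theorem eHalf_of (hM : MartP.{u}) (hV : VarP.{u}) (hVR : VarRP.{u})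
    (A : Type u) [CStarAlgebra A] [PartialOrder A] [StarOrderedRing A]
    (G : Type) [Group G] [Fintype G] (α : G → A ≃⋆ₐ[ℂ] A) (hα : IsAct α)
    (hΓ : UGamma A ∨ ∃ (R : Type u) (_ : CStarAlgebra R) (_ : PartialOrder R)
      (_ : StarOrderedRing R) (k : A →⋆ₐ[ℂ] R) (w : G → R), IsCross α k w ∧ UGamma R) :
    EHalf A α := by
  have hn : (1 : ℝ) ≤ Fintype.card G := by exact_mod_cast Fintype.card_pos
  have h0 : (0 : ℝ) < 1 / (4 * (Fintype.card G : ℝ) ^ 2) := by positivity
  have h1 : 1 / (4 * (Fintype.card G : ℝ) ^ 2) ≤ 1 := by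
    rw [div_le_one (by positivity)]
    nlinarith
  rcases hΓ with h | ⟨R, _, _, _, k, w, hk, hR⟩
  · exact hM A G α _ h0 h1 (hV A G α hα h)
  · exact hM A G α _ h0 h1 (hVR A R G α k w hα hk hR)

end RC
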