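import Pool.Agent.Helper10.RC.All
import Pool.Agent.Helper48.RC.Max
import Pool.Agent.Helper11.RC.Two
import Pool.Agent.Helper29.UG.Fin
import Pool.Agent.Helper31.UG.App
import Pool.Agent.Helper82.UG.TDivG
import Pool.Agent.Helper39.UG.TD3
import Pool.Agent.Helper83.UG.MidC
import Pool.Agent.Helper81.UG.NoFin
import Pool.Agent.Helper79.UG.N2
import Pool.Agent.Helper13.UG.AbSys
import Pool.Agent.Helper34.UG.AbRep
import Pool.Agent.Helper5.UG.TCompG
import Pool.Agent.Helper86.UG.MidD
import Pool.Agent.Helper77.UG.TComp0G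
import Pool.Agent.Helper15.UG.NoAbAll
import Pool.Agent.Helper56.UG.DomInv
import Pool.Agent.Helper94.UG.Conv
import Pool.Agent.Helper3.UG.AbSub
import Pool.Agent.Helper65.UG.HNet
import Pool.Agent.Helper93.UG.UD3
import Pool.Agent.Helper60.UG.Char
import Pool.Agent.Helper73.UG.DomInvMat
import Pool.Agent.Helper85.UG.Step
import Pool.Agent.Helper61.UG.Mart
import Pool.Agent.Helper2.UG.Var
import Pool.Agent.Helper12.UG.VarR
import Pool.Agent.Helper51.UG.EHMat
import Pool.Agent.Helper90.UG.Entry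

/-!
# MP_b55b7c_an: uniform property Gamma, all pieces together
-/

open scoped ENNReal NNReal InnerProductSpace ComplexOrder
open Filter Topology

attribute [-instance] CStarMatrix.instAlgebra CStarMatrix.instModule CStarMatrix.instSMul
  CStarMatrix.instMulAction CStarMatrix.instDistribMulAction

noncomputable section
namespace RC
universe u

theorem convG : ConvP.{u} := Conv94.conv n2P
theorem appG : AppP.{u} := ugAppP n2P
theorem midCG : MidCP.{u} := midC83 hNet_proof appG
theorem midDG : MidDP.{u} := midD hNet_proof appG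
theorem absysG : AbSysP.{u} := AbSys13.abSys (exhP maxP polarP) csupP absubP
theorem noAbAllG : NoAbAllP.{u} := noAbAllP (abRep_h34 absysG charP_h60) noFinP
theorem td3G : TD3P.{u} :=
  tD3P gnsP impP repFV2_all noAbAllG (pieces_of maxP (twoP ncP polarP)) kap2_all twoNormP
theorem ud3G : UD3P.{u} := ud3_93 convG td3G midDG
theorem tDivG_all : TDivGP.{u} :=
  tDivG ud3G sB_all cuLeAdd_all cuSwap_all cuAdd_all qMono_all qDsum_all qDg_all qBasicP mpP
theorem tComp0G_all : TComp0GP.{u} := tComp0GP (tC2_of maxP) convG midCG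
theorem domInvMat_all : DomInvMatP.{u} :=
  Pool.Agent.Helper73.UG.domInvMatP qOfTP redDn_all flatP
theorem tCompG_all : TCompGP.{u} :=
  tCompGP tComp0G_all entryP eHMat51 domInvMat_all redDn_all redUp_all flatP qMono_all qBasicP
theorem martG : MartP.{u} := mart n2P (stepP n2P)

theorem finalG (A : Type u) [CStarAlgebra A] [PartialOrder A] [StarOrderedRing A]
    (hs : IsSimpleC A) (hinf : ¬ FiniteDimensional ℂ A) (C : ℝ)
    (hCd : ∀ σ : QTrace A, ∃ φ : TState A, ∀ x : A, 0 ≤ x →
      σ.τ Unit (one1 x) ≤ C * (φ.φ x).re)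
    (G : Type) [Group G] [Fintype G] (α : G → A ≃⋆ₐ[ℂ] A) (hα : IsAct α)
    (hΓ : UGamma A ∨ ∃ (R : Type u) (_ : CStarAlgebra R) (_ : PartialOrder R)
      (_ : StarOrderedRing R) (k : A →⋆ₐ[ℂ] R) (w : G → R), IsCross α k w ∧ UGamma R) :
    (∀ (B : Type u) [CStarAlgebra B] [PartialOrder B] [StarOrderedRing B] (j : B →⋆ₐ[ℂ] A),
      IsFix α j → rc A ≤ rc B) ∧
    (∀ (R : Type u) [CStarAlgebra R] [PartialOrder R] [StarOrderedRing R] (k : A →⋆ₐ[ℂ] R)
      (w : G → R), IsCross α k w → rc A / Fintype.card G ≤ rc R) :=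
  of_eHalf (limEqP qBasicP) crit_all redComp_all tCompG_all tDivG_all eHMat51 domInvP
    domInvMat_all crossGP matSimpP simpP A hs hinf C hCd G α hα
    (eHalf_of martG (UGVar2.var n2P) (varRP n2P) A G α hα hΓ)

end RC
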