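import Pool.Agent.Helper10.RC.Props

/-!
# MP_b55b7c_an: uniform property Gamma, the statements of the packets
-/

open scoped ENNReal NNReal InnerProductSpace ComplexOrder
open Filter Topology

attribute [-instance] CStarMatrix.instAlgebra CStarMatrix.instModule CStarMatrix.instSMul
  CStarMatrix.instMulAction CStarMatrix.instDistribMulAction

noncomputable section
namespace RC
universe u

/-- Uniform property Gamma: for every `N` there are approximately central elements `e` with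
`0 ≤ e ≤ 1` which are approximately projections and have `τ(e x) ≈ τ(x)/N`, uniformly over all
tracial states `τ`. -/
def UGamma (A : Type u) [CStarAlgebra A] [PartialOrder A] [StarOrderedRing A] : Prop :=
  ∀ (N : ℕ) (F : Finset A) (ε : ℝ), 0 < N → 0 < ε → ∃ e : A, 0 ≤ e ∧ e ≤ 1 ∧
    ∀ φ : TState A, (φ.φ (e - e * e)).re ≤ ε ∧ ∀ x ∈ F,
      (φ.φ (star (e * x - x * e) * (e * x - x * e))).re ≤ ε ∧
      ‖φ.φ (e * x) - φ.φ x / N‖ ≤ ε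

section
variable {A : Type u} [CStarAlgebra A] [PartialOrder A] [StarOrderedRing A]

/-- The 2-norm of a tracial state. -/
def n2 (φ : TState A) (x : A) : ℝ := √(φ.φ (star x * x)).re

/-- `φ` is invariant under the action. -/
def Inv {G : Type} (α : G → A ≃⋆ₐ[ℂ] A) (φ : TState A) : Prop :=
  ∀ g a, φ.φ (α g a) = φ.φ a

variable (A) in
/-- Invariant approximately central approximate projections of conditional trace one half,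
uniformly over the invariant tracial states. -/
def EHalf {G : Type} (α : G → A ≃⋆ₐ[ℂ] A) : Prop :=
  ∀ (F : Finset A) (ε : ℝ), 0 < ε → ∃ y : A, (∀ g, α g y = y) ∧ 0 ≤ y ∧ y ≤ 1 ∧
    ∀ φ : TState A, Inv α φ → n2 φ (y - y * y) ≤ ε ∧ ∀ x ∈ F,
      n2 φ (y * x - x * y) ≤ ε ∧ ‖φ.φ (y * x) - φ.φ x / 2‖ ≤ ε

variable (A) in
/-- Invariant approximately central self-adjoint contractions of conditional mean zero and
conditional variance at least `v`, uniformly over the invariant tracial states. -/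
def EVar {G : Type} (α : G → A ≃⋆ₐ[ℂ] A) (v : ℝ) : Prop :=
  ∀ (F : Finset A) (ε : ℝ), 0 < ε → ∃ ξ : A, (∀ g, α g ξ = ξ) ∧ IsSelfAdjoint ξ ∧ ‖ξ‖ ≤ 1 ∧
    ∀ φ : TState A, Inv α φ → ∀ z ∈ F, n2 φ (ξ * z - z * ξ) ≤ ε ∧ ‖φ.φ (ξ * z)‖ ≤ ε ∧
      v * n2 φ z ^ 2 - ε ≤ n2 φ (ξ * z) ^ 2

/-- The net `x` is small in the uniform 2-norm. -/
def Nul {G : Type} {Λ : Type u} (l : Filter Λ) (α : G → A ≃⋆ₐ[ℂ] A) (x : Λ → A) : Prop :=
  ∀ ε : ℝ, 0 < ε → ∀ᶠ t in l, ∀ φ : TState A, Inv α φ → n2 φ (x t) ≤ ε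

/-- A net as in `EHalf`. -/
structure HNet {G : Type} {Λ : Type u} (l : Filter Λ) (α : G → A ≃⋆ₐ[ℂ] A) (y : Λ → A) :
    Prop where
  inv : ∀ t g, α g (y t) = y t
  nonneg : ∀ t, 0 ≤ y t
  le_one : ∀ t, y t ≤ 1
  idem : Nul l α fun t => y t - y t * y t
  comm : ∀ w : A, Nul l α fun t => y t * w - w * y t
  half : ∀ (w : A) (ε : ℝ), 0 < ε → ∀ᶠ t in l, ∀ φ : TState A, Inv α φ →
    ‖φ.φ (y t * w) - φ.φ w / 2‖ ≤ ε

/-- The bounded net `x` is close to `u₀ y + u₁ (1 - y)`. -/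
def App {G : Type} {Λ : Type u} (l : Filter Λ) (α : G → A ≃⋆ₐ[ℂ] A) (y x : Λ → A)
    (u₀ u₁ : A) : Prop :=
  (∃ C : ℝ, ∀ t, ‖x t‖ ≤ C) ∧ Nul l α fun t => x t - (u₀ * y t + u₁ * (1 - y t))

/-- The defect of a system of matrix units. -/
def HD {L : ℕ} (e : A) (x : Fin L → A) : A :=
  star (1 - ∑ i, x i * (e * e) * star (x i)) * (1 - ∑ i, x i * (e * e) * star (x i)) +
    ∑ i, ∑ l, star (e * star (x i) * x l * e - if i = l then e * e else 0) *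
      (e * star (x i) * x l * e - if i = l then e * e else 0)

variable (A) in
/-- Every quasitrace is dominated, up to the constant `C`, by the quasitrace of an invariant
tracial state. -/
def DomInv {G : Type} (α : G → A ≃⋆ₐ[ℂ] A) (C : ℝ) : Prop :=
  ∀ σ : QTrace A, ∃ (φ : TState A) (σ₀ : QTrace A), Inv α φ ∧ IsQ φ σ₀ ∧
    ∀ (κ : Type) [Fintype κ] [DecidableEq κ] (x : CStarMatrix κ κ A), 0 ≤ x →
      σ.dim x ≤ C * Fintype.card κ * σ₀.dim x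

end

/-! ## The packets -/

/-- Elementary properties of the 2-norm. -/
def N2P : Prop := ∀ (A : Type u) [CStarAlgebra A] [PartialOrder A] [StarOrderedRing A]
  (φ : TState A),
  (∀ x : A, 0 ≤ n2 φ x ∧ n2 φ x ^ 2 = (φ.φ (star x * x)).re ∧ n2 φ x ≤ ‖x‖ ∧ ‖φ.φ x‖ ≤ n2 φ x ∧
    n2 φ (star x) = n2 φ x ∧ n2 φ (-x) = n2 φ x) ∧
  (∀ (c : ℂ) (x : A), n2 φ (c • x) = ‖c‖ * n2 φ x) ∧
  (∀ x y : A, n2 φ (x + y) ≤ n2 φ x + n2 φ y ∧ n2 φ (x - y) ≤ n2 φ x + n2 φ y ∧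
    n2 φ (x * y) ≤ ‖x‖ * n2 φ y ∧ n2 φ (x * y) ≤ n2 φ x * ‖y‖ ∧
    ‖φ.φ (star x * y)‖ ≤ n2 φ x * n2 φ y) ∧
  (∀ x y : A, x ≤ y → (φ.φ x).re ≤ (φ.φ y).re)

/-- The minimax principle. -/
def ConvP : Prop := ∀ (A : Type u) [CStarAlgebra A] [PartialOrder A] [StarOrderedRing A]
  (G : Type) (α : G → A ≃⋆ₐ[ℂ] A) (V : Set A) (η : ℝ), V.Nonempty →
  (∀ φ : TState A, Inv α φ → ∃ f ∈ V, (φ.φ f).re < η) →
  (∀ f₀ ∈ V, ∀ f₁ ∈ V, ∀ ε : ℝ, 0 < ε → ∃ f ∈ V, ∀ φ : TState A, Inv α φ →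
    (φ.φ f).re ≤ ((φ.φ f₀).re + (φ.φ f₁).re) / 2 + ε) →
  ∃ f ∈ V, ∀ φ : TState A, Inv α φ → (φ.φ f).re < η

/-- One step of the martingale. -/
def StepP : Prop := ∀ (A : Type u) [CStarAlgebra A] [PartialOrder A] [StarOrderedRing A]
  (G : Type) (α : G → A ≃⋆ₐ[ℂ] A) (v : ℝ), 0 < v → v ≤ 1 → EVar A α v →
  ∀ (F : Finset A) (ε : ℝ), 0 < ε → ε ≤ 1 → ∀ y : A, (∀ g, α g y = y) → 0 ≤ y → y ≤ 1 →
  ∃ y' : A, (∀ g, α g y' = y') ∧ 0 ≤ y' ∧ y' ≤ 1 ∧ ∀ φ : TState A, Inv α φ →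
    (φ.φ (y' - y' * y')).re ≤ (φ.φ (y - y * y)).re - v / 2 * (φ.φ (y - y * y)).re ^ 4 + 5 * ε ∧
    ∀ z ∈ F, ‖φ.φ (y' * z) - φ.φ (y * z)‖ ≤ ε ∧
      n2 φ (y' * z - z * y') ≤ 3 * n2 φ (y * z - z * y) + ε

def MartP : Prop := ∀ (A : Type u) [CStarAlgebra A] [PartialOrder A] [StarOrderedRing A]
  (G : Type) (α : G → A ≃⋆ₐ[ℂ] A) (v : ℝ), 0 < v → v ≤ 1 → EVar A α v → EHalf A α

def VarP : Prop := ∀ (A : Type u) [CStarAlgebra A] [PartialOrder A] [StarOrderedRing A]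
  (G : Type) [Group G] [Fintype G] (α : G → A ≃⋆ₐ[ℂ] A), IsAct α → UGamma A →
  EVar A α (1 / (4 * (Fintype.card G : ℝ) ^ 2))

def VarRP : Prop := ∀ (A : Type u) [CStarAlgebra A] [PartialOrder A] [StarOrderedRing A]
  (R : Type u) [CStarAlgebra R] [PartialOrder R] [StarOrderedRing R]
  (G : Type) [Group G] [Fintype G] (α : G → A ≃⋆ₐ[ℂ] A) (k : A →⋆ₐ[ℂ] R) (w : G → R),
  IsAct α → IsCross α k w → UGamma R → EVar A α (1 / (4 * (Fintype.card G : ℝ) ^ 2))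

def HNetP : Prop := ∀ (A : Type u) [CStarAlgebra A] [PartialOrder A] [StarOrderedRing A]
  (G : Type) (α : G → A ≃⋆ₐ[ℂ] A), EHalf A α →
  ∃ (Λ : Type u) (l : Filter Λ) (y : Λ → A), l.NeBot ∧ HNet l α y

/-- The calculus of approximation by `u₀ y + u₁ (1 - y)`. -/
def AppP : Prop := ∀ (A : Type u) [CStarAlgebra A] [PartialOrder A] [StarOrderedRing A]
  (G : Type) (α : G → A ≃⋆ₐ[ℂ] A) (Λ : Type u) (l : Filter Λ) (y : Λ → A), HNet l α y →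
  (∀ w : A, App l α y (fun _ => w) w w) ∧
  (∀ (x x' : Λ → A) (u₀ u₁ v₀ v₁ : A), App l α y x u₀ u₁ → App l α y x' v₀ v₁ →
    App l α y (fun t => x t * x' t) (u₀ * v₀) (u₁ * v₁) ∧
    App l α y (fun t => x t + x' t) (u₀ + v₀) (u₁ + v₁) ∧
    App l α y (fun t => x t - x' t) (u₀ - v₀) (u₁ - v₁) ∧
    App l α y (fun t => star (x t)) (star u₀) (star u₁)) ∧
  (∀ u₀ u₁ : A, App l α y (fun t => y t * u₀ * y t + (1 - y t) * u₁ * (1 - y t)) u₀ u₁) ∧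
  (∀ (x : Λ → A) (u₀ u₁ : A), App l α y x u₀ u₁ → ∀ ε : ℝ, 0 < ε → ∀ᶠ t in l,
    ∀ φ : TState A, Inv α φ → ‖φ.φ (x t) - (φ.φ u₀ + φ.φ u₁) / 2‖ ≤ ε)

def MidCP : Prop := ∀ (A : Type u) [CStarAlgebra A] [PartialOrder A] [StarOrderedRing A]
  (G : Type) (α : G → A ≃⋆ₐ[ℂ] A), EHalf A α → ∀ a b y₀ y₁ : A, ∀ ε : ℝ, 0 < ε →
  ∃ y : A, ∀ φ : TState A, Inv α φ →
    (φ.φ (star (a - star y * b * y) * (a - star y * b * y))).re ≤
      ((φ.φ (star (a - star y₀ * b * y₀) * (a - star y₀ * b * y₀))).re +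
        (φ.φ (star (a - star y₁ * b * y₁) * (a - star y₁ * b * y₁))).re) / 2 + ε

def MidDP : Prop := ∀ (A : Type u) [CStarAlgebra A] [PartialOrder A] [StarOrderedRing A]
  (G : Type) (α : G → A ≃⋆ₐ[ℂ] A), EHalf A α → ∀ (L : ℕ) (e₀ e₁ : A) (x₀ x₁ : Fin L → A),
  (∀ g, α g e₀ = e₀) → (∀ g, α g e₁ = e₁) → (∀ g i, α g (x₀ i) = x₀ i) →
  (∀ g i, α g (x₁ i) = x₁ i) → 0 ≤ e₀ → e₀ ≤ 1 → 0 ≤ e₁ → e₁ ≤ 1 → (∀ i, ‖x₀ i‖ ≤ 1) →
  (∀ i, ‖x₁ i‖ ≤ 1) → ∀ ε : ℝ, 0 < ε → ∃ (e : A) (x : Fin L → A), (∀ g, α g e = e) ∧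
    (∀ g i, α g (x i) = x i) ∧ 0 ≤ e ∧ e ≤ 1 ∧ (∀ i, ‖x i‖ ≤ 1) ∧
    ∀ φ : TState A, Inv α φ → (φ.φ (HD e x)).re ≤
      ((φ.φ (HD e₀ x₀)).re + (φ.φ (HD e₁ x₁)).re) / 2 + ε

def EHMatP : Prop := ∀ (A : Type u) [CStarAlgebra A] [PartialOrder A] [StarOrderedRing A]
  (G : Type) (α : G → A ≃⋆ₐ[ℂ] A), EHalf A α → ∀ (ν : Type) [Fintype ν] [DecidableEq ν]
  [Nonempty ν] (β : G → CStarMatrix ν ν A ≃⋆ₐ[ℂ] CStarMatrix ν ν A),
  (∀ g a, β g (dg ν a) = dg ν (α g a)) → EHalf (CStarMatrix ν ν A) β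

/-- The fixed point algebra has no finite dimensional representation. -/
def NoFinP : Prop := ∀ (A : Type u) [CStarAlgebra A] [PartialOrder A] [StarOrderedRing A]
  (B : Type u) [CStarAlgebra B] [PartialOrder B] [StarOrderedRing B]
  (G : Type) [Group G] [Fintype G] (α : G → A ≃⋆ₐ[ℂ] A) (j : B →⋆ₐ[ℂ] A), IsAct α → IsFix α j →
  Simp A → ¬ FiniteDimensional ℂ A → ∀ (r : ℕ) (χ : B → Matrix (Fin r) (Fin r) ℂ), 0 < r →
  χ 1 = 1 → (∀ x y, χ (x * y) = χ x * χ y) → (∀ x y, χ (x + y) = χ x + χ y) →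
  (∀ (c : ℂ) (x), χ (c • x) = c • χ x) → False

/-- Subprojections of an abelian projection. -/
def AbSubP : Prop := ∀ (H : Type u) [NormedAddCommGroup H] [InnerProductSpace ℂ H]
  [CompleteSpace H] (S : Set (H →L[ℂ] H)), (∀ x ∈ S, star x ∈ S) → ∀ f ∈ S.centralizer,
  IsStarProjection f → (∀ x ∈ S.centralizer, ∀ y ∈ S.centralizer,
    f * x * f * y * f = f * y * f * x * f) →
  ∀ g ∈ S.centralizer, IsStarProjection g → f * g = g → ∃ c, CP S c ∧ g = f * c ∧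
    ∀ q ∈ S.centralizer, (∀ x ∈ S.centralizer, q * x * g = 0) → q * c = 0

def AbSysP : Prop := ∀ (H : Type u) [NormedAddCommGroup H] [InnerProductSpace ℂ H]
  [CompleteSpace H] (S : Set (H →L[ℂ] H)) (ξ : H), FV S ξ → ∀ f ∈ S.centralizer,
  IsStarProjection f → f ≠ 0 → (∀ x ∈ S.centralizer, ∀ y ∈ S.centralizer,
    f * x * f * y * f = f * y * f * x * f) →
  ∃ (r : ℕ) (v : Fin r → (H →L[ℂ] H)) (z : H →L[ℂ] H), (∀ i, v i ∈ S.centralizer) ∧ CP S z ∧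
    f * z ≠ 0 ∧ (∀ i l, star (v i) * v l = if i = l then f else 0) ∧
    (∑ i, v i * star (v i)) * z = z

/-- A character of a commutative corner. -/
def CharP : Prop := ∀ (H : Type u) [NormedAddCommGroup H] [InnerProductSpace ℂ H]
  [CompleteSpace H] (S : Set (H →L[ℂ] H)), (∀ x ∈ S, star x ∈ S) → ∀ f ∈ S.centralizer,
  IsStarProjection f → f ≠ 0 → (∀ x ∈ S.centralizer, ∀ y ∈ S.centralizer,
    f * x * f * y * f = f * y * f * x * f) →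
  ∃ ω : (H →L[ℂ] H) → ℂ, ω 1 = 1 ∧ (∀ x ∈ S.centralizer, ∀ y ∈ S.centralizer,
    ω (x + y) = ω x + ω y ∧ ω (x * f * y) = ω x * ω y) ∧
    ∀ (c : ℂ), ∀ x ∈ S.centralizer, ω (c • x) = c * ω x

def AbRepP : Prop := ∀ (H : Type u) [NormedAddCommGroup H] [InnerProductSpace ℂ H]
  [CompleteSpace H] (S : Set (H →L[ℂ] H)) (ξ : H), FV S ξ → ∀ f ∈ S.centralizer,
  IsStarProjection f → f ≠ 0 → (∀ x ∈ S.centralizer, ∀ y ∈ S.centralizer,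
    f * x * f * y * f = f * y * f * x * f) →
  ∃ (r : ℕ) (χ : (H →L[ℂ] H) → Matrix (Fin r) (Fin r) ℂ), 0 < r ∧ χ 1 = 1 ∧
    (∀ x ∈ S.centralizer, ∀ y ∈ S.centralizer, χ (x * y) = χ x * χ y ∧ χ (x + y) = χ x + χ y) ∧
    ∀ (c : ℂ), ∀ x ∈ S.centralizer, χ (c • x) = c • χ x

/-- The von Neumann algebra generated by the fixed point algebra has no abelian projection. -/
def NoAbAllP : Prop := ∀ (A : Type u) [CStarAlgebra A] [PartialOrder A] [StarOrderedRing A]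
  (B : Type u) [CStarAlgebra B] [PartialOrder B] [StarOrderedRing B] (j : B →⋆ₐ[ℂ] A)
  (φ : TState A) (G : Type) [Group G] [Fintype G] (α : G → A ≃⋆ₐ[ℂ] A) (H : Type u)
  [NormedAddCommGroup H] [InnerProductSpace ℂ H] [CompleteSpace H]
  (π : A →⋆ₐ[ℂ] (H →L[ℂ] H)) (ρ : A → (H →L[ℂ] H)) (ξ : H) (U : G → (H →L[ℂ] H)),
  IsRep φ π ρ ξ → IsAct α → IsFix α j → IsImp α π ξ U → Simp A → ¬ FiniteDimensional ℂ A →
  NoAb (Set.range ρ ∪ Set.range U)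

/-- Tracial divisibility in the 2-norm at one invariant trace. -/
def TD3P : Prop := ∀ (A : Type u) [CStarAlgebra A] [PartialOrder A] [StarOrderedRing A]
  (B : Type u) [CStarAlgebra B] [PartialOrder B] [StarOrderedRing B]
  (G : Type) [Group G] [Fintype G] (α : G → A ≃⋆ₐ[ℂ] A) (j : B →⋆ₐ[ℂ] A), IsAct α → IsFix α j →
  Simp A → ¬ FiniteDimensional ℂ A → ∀ (φ : TState A), Inv α φ → ∀ (k : ℕ) (η : ℝ), 0 < η →
  ∃ (e : B) (x : Fin (2 ^ k) → B), 0 ≤ e ∧ e ≤ 1 ∧ (∀ i, ‖x i‖ ≤ 1) ∧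
    (φ.φ (j (star (1 - ∑ i, x i * (e * e) * star (x i)) *
      (1 - ∑ i, x i * (e * e) * star (x i))))).re < η ∧
    ∀ i l, (φ.φ (j (star (e * star (x i) * x l * e - if i = l then e * e else 0) *
      (e * star (x i) * x l * e - if i = l then e * e else 0)))).re < η

/-- Uniform tracial divisibility in the 2-norm. -/
def UD3P : Prop := ∀ (A : Type u) [CStarAlgebra A] [PartialOrder A] [StarOrderedRing A]
  (B : Type u) [CStarAlgebra B] [PartialOrder B] [StarOrderedRing B]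
  (G : Type) [Group G] [Fintype G] (α : G → A ≃⋆ₐ[ℂ] A) (j : B →⋆ₐ[ℂ] A), IsAct α → IsFix α j →
  Simp A → ¬ FiniteDimensional ℂ A → EHalf A α → ∀ (k : ℕ) (η : ℝ), 0 < η →
  ∃ (e : B) (x : Fin (2 ^ k) → B), 0 ≤ e ∧ e ≤ 1 ∧ (∀ i, ‖x i‖ ≤ 1) ∧
    ∀ φ : TState A, Inv α φ → (φ.φ (j (HD e x))).re < η

/-! ## From the 2-norm to rank functions -/

/-- Domination by the quasitraces of invariant tracial states. -/
def DomInvP : Prop := ∀ (A : Type u) [CStarAlgebra A] [PartialOrder A] [StarOrderedRing A]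
  (C : ℝ), (∀ σ : QTrace A, ∃ φ : TState A, ∀ x : A, 0 ≤ x →
    σ.τ Unit (one1 x) ≤ C * (φ.φ x).re) →
  ∀ (G : Type) [Group G] [Fintype G] (α : G → A ≃⋆ₐ[ℂ] A), IsAct α →
  ∃ C' : ℝ, 0 ≤ C' ∧ DomInv A α C'

/-- The entrywise action on matrices. -/
def EntryP : Prop := ∀ (A : Type u) [CStarAlgebra A] [PartialOrder A] [StarOrderedRing A]
  (G : Type) (α : G → A ≃⋆ₐ[ℂ] A) (ν : Type) [Fintype ν] [DecidableEq ν],
  ∃ β : G → CStarMatrix ν ν A ≃⋆ₐ[ℂ] CStarMatrix ν ν A,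
    (∀ g a, β g (dg ν a) = dg ν (α g a)) ∧ ∀ φ : A →ₗ[ℂ] ℂ, (∀ g a, φ (α g a) = φ a) →
      ∀ (g : G) (T : CStarMatrix ν ν A), ∑ i, φ (β g T i i) = ∑ i, φ (T i i)

/-- Domination passes to matrices. -/
def DomInvMatP : Prop := ∀ (A : Type u) [CStarAlgebra A] [PartialOrder A] [StarOrderedRing A]
  (G : Type) (α : G → A ≃⋆ₐ[ℂ] A) (C : ℝ), 0 ≤ C → DomInv A α C →
  ∀ (ν : Type) [Fintype ν] [DecidableEq ν] [Nonempty ν]
  (β : G → CStarMatrix ν ν A ≃⋆ₐ[ℂ] CStarMatrix ν ν A),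
  (∀ φ : A →ₗ[ℂ] ℂ, (∀ g a, φ (α g a) = φ a) → ∀ (g : G) (T : CStarMatrix ν ν A),
    ∑ i, φ (β g T i i) = ∑ i, φ (T i i)) →
  DomInv (CStarMatrix ν ν A) β (C * Fintype.card ν)

/-- The scalar case of tracial comparison. -/
def TComp0GP : Prop := ∀ (D : Type u) [CStarAlgebra D] [PartialOrder D] [StarOrderedRing D]
  (G : Type) (β : G → D ≃⋆ₐ[ℂ] D) (C : ℝ), EHalf D β → 0 ≤ C → DomInv D β C →
  ∀ a b : D, 0 ≤ a → 0 ≤ b → (∀ σ : QTrace D, σ.dim (one1 a) < σ.dim (one1 b)) →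
  ∀ δ : ℝ, 0 < δ → ∃ y c : D, 0 ≤ c ∧ a ≤ star y * b * y + c + δ • (1 : D) ∧
    ∀ σ : QTrace D, σ.dim (one1 c) < δ

def TCompGP : Prop := ∀ (A : Type u) [CStarAlgebra A] [PartialOrder A] [StarOrderedRing A]
  (G : Type) (α : G → A ≃⋆ₐ[ℂ] A) (C : ℝ), EHalf A α → 0 ≤ C → DomInv A α C → TComp A

def TDivGP : Prop := ∀ (A : Type u) [CStarAlgebra A] [PartialOrder A] [StarOrderedRing A]
  (B : Type u) [CStarAlgebra B] [PartialOrder B] [StarOrderedRing B]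
  (G : Type) [Group G] [Fintype G] (α : G → A ≃⋆ₐ[ℂ] A) (j : B →⋆ₐ[ℂ] A), IsAct α → IsFix α j →
  Simp A → ¬ FiniteDimensional ℂ A → ∀ C : ℝ, EHalf A α → 0 ≤ C → DomInv A α C → TDiv B

end RC
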